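import Pool.Agent.W314.BA.Stm

/-! MP_f2742c_an, part K1: the local limit upper bound. -/

open MeasureTheory Set Filter Topology Real
open scoped ENNReal NNReal

namespace Pool.Agent.W340.BA.LL

open Pool.Agent.W314.BA

noncomputable section

/-- the finite measure with density `Fs 2 (hh g)` -/
def nu : Measure G := hm.withDensity (fun g => ENNReal.ofReal (Fs 2 (hh g)))

lemma Fs_meas : Measurable (Fs 2) := by
  unfold Fs
  fun_prop

lemma Fs_hh_meas : Measurable (fun g : G => Fs 2 (hh g)) := Fs_meas.comp hh_measurable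

lemma Fs_hh_nonneg (g : G) : 0 ≤ Fs 2 (hh g) := by
  unfold Fs
  positivity

lemma Fs_int : IntegrableOn (Fs 2) (Ici 1) := by
  rw [integrableOn_Ici_iff_integrableOn_Ioi]
  have h1 : IntegrableOn (fun t : ℝ => t ^ (-2 : ℝ)) (Ioi 1) :=
    integrableOn_Ioi_rpow_of_lt (by norm_num) (by norm_num)
  refine Integrable.mono' h1 Fs_meas.aestronglyMeasurable ?_
  refine (ae_restrict_iff' measurableSet_Ioi).2 (Eventually.of_forall fun t ht => ?_)
  have ht' : (1 : ℝ) < t := ht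
  have h0 : (0 : ℝ) < t := by linarith
  rw [Real.rpow_neg h0.le, Real.norm_eq_abs]
  unfold Fs
  rw [abs_of_nonneg (by positivity)]
  have : t ^ (2 : ℝ) = t ^ 2 := by exact_mod_cast Real.rpow_natCast t 2
  rw [this]
  apply inv_anti₀ (by positivity)
  nlinarith

lemma Fs_hh_int : Integrable (fun g : G => Fs 2 (hh g)) hm := by
  have h1 : Integrable (Fs 2) (hm.map hh) := by
    rw [map_hh]; exact Fs_int
  exact h1.comp_measurable hh_measurable

instance nu_fin : IsFiniteMeasure nu := by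
  unfold nu
  exact isFiniteMeasure_withDensity_ofReal Fs_hh_int.2

lemma bm_two_le : bm 2 ≤ (9 : ℝ≥0∞) • nu := by
  have h1 : bm 2 = hm.restrict (Bx 2) := by
    unfold bm
    norm_num
  rw [h1]
  refine Measure.le_iff.2 fun s hs => ?_
  rw [Measure.restrict_apply hs, Measure.smul_apply, nu, withDensity_apply _ hs, smul_eq_mul,
    ← lintegral_const_mul _ (Fs_hh_meas.ennreal_ofReal)]
  have h2 : hm (s ∩ Bx 2) = ∫⁻ g in s ∩ Bx 2, 1 ∂hm := by simp
  rw [h2]
  refine le_trans ?_ (lintegral_mono_set (inter_subset_left : s ∩ Bx 2 ⊆ s))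
  refine setLIntegral_mono' (hs.inter (Bx_meas 2)) fun g hg => ?_
  have hg2 : hh g ≤ 2 := hg.2
  have hg1 := one_le_hh g
  have h3 : (1 : ℝ) ≤ 9 * Fs 2 (hh g) := by
    unfold Fs
    rw [← div_eq_mul_inv, le_div_iff₀ (by positivity)]
    nlinarith
  calc (1 : ℝ≥0∞) = ENNReal.ofReal 1 := by simp
    _ ≤ ENNReal.ofReal (9 * Fs 2 (hh g)) := ENNReal.ofReal_le_ofReal h3
    _ = 9 * ENNReal.ofReal (Fs 2 (hh g)) := by
      rw [ENNReal.ofReal_mul (by norm_num)]
      norm_num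

section
variable {Y : Type} [MulAction G Y]

lemma op_eq (c : G → Y → ℤ) (θ : ℝ) (f : Y → ℂ) (y : Y) :
    op c θ (Fs 2) f y = ∫ g, ee (θ * c g y) * f (g • y) ∂nu := by
  unfold op nu
  rw [integral_withDensity_eq_integral_toReal_smul Fs_hh_meas.ennreal_ofReal
    (Eventually.of_forall fun g => ENNReal.ofReal_lt_top)]
  refine integral_congr_ae (Eventually.of_forall fun g => ?_)
  simp only
  rw [ENNReal.toReal_ofReal (Fs_hh_nonneg g), Complex.real_smul]

end

lemma ee_add (a b : ℝ) : ee (a + b) = ee a * ee b := by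
  unfold ee
  rw [← Complex.exp_add]
  congr 1
  push_cast
  ring

lemma ee_norm (a : ℝ) : ‖ee a‖ = 1 := by
  unfold ee
  have : (2 * (π : ℂ) * Complex.I * (a : ℂ)) = ((2 * π * a : ℝ) : ℂ) * Complex.I := by
    push_cast; ring
  rw [this, Complex.norm_exp_ofReal_mul_I]

lemma ee_cont : Continuous ee := by
  unfold ee
  fun_prop

lemma ee_meas : Measurable ee := ee_cont.measurable

lemma orth (m : ℤ) : ∫ θ in (0 : ℝ)..1, ee (θ * m) = if m = 0 then 1 else 0 := by
  split_ifs with h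
  · subst h
    simp [ee]
  · have hm : (2 * (π : ℂ) * Complex.I * (m : ℂ)) ≠ 0 := by
      have h1 : (m : ℂ) ≠ 0 := by exact_mod_cast h
      have h2 : (π : ℂ) ≠ 0 := by exact_mod_cast Real.pi_ne_zero
      simp [h1, h2]
    have h3 : (fun θ : ℝ => ee (θ * m)) =
        fun θ : ℝ => Complex.exp ((2 * (π : ℂ) * Complex.I * (m : ℂ)) * (θ : ℂ)) := by
      funext θ
      unfold ee
      congr 1
      push_cast
      ring
    rw [h3, integral_exp_mul_complex hm]
    have h4 : Complex.exp ((2 * (π : ℂ) * Complex.I * (m : ℂ)) * ((1 : ℝ) : ℂ)) = 1 := by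
      rw [Complex.exp_eq_one_iff]
      exact ⟨m, by push_cast; ring⟩
    rw [h4]
    simp

section
variable {Y : Type} [MeasurableSpace Y] [MulAction G Y]

/-- the big product measure -/
def MM (μ : Measure Y) (X : ℝ) : Measure (Y × G × G × G) :=
  μ.prod (nu.prod ((bm X).prod nu))

instance MM_fin (μ : Measure Y) [IsProbabilityMeasure μ] (X : ℝ) :
    IsFiniteMeasure (MM μ X) := by
  unfold MM
  infer_instance

/-- the cocycle of the triple product -/
def Cf (c : G → Y → ℤ) (p : Y × G × G × G) : ℤ := c (p.2.2.2 * p.2.2.1 * p.2.1) p.1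

lemma Cf_meas {μ : Measure Y} {c : G → Y → ℤ} (h : Sys μ c) : Measurable (Cf c) := by
  have h1 : Measurable (fun p : Y × G × G × G => (p.2.2.2 * p.2.2.1 * p.2.1, p.1)) := by
    fun_prop
  exact h.c_meas.comp h1

omit [MulAction G Y] in
lemma tonelli' (μ : Measure Y) [SFinite μ] (X : ℝ) (f : Y × G × G × G → ℝ≥0∞)
    (hf : Measurable f) :
    ∫⁻ y, ∫⁻ g, ∫⁻ u1, ∫⁻ u2, f (y, u2, g, u1) ∂nu ∂nu ∂(bm X) ∂μ = ∫⁻ p, f p ∂(MM μ X) := by
  rw [MM, lintegral_prod _ hf.aemeasurable]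
  refine lintegral_congr fun y => ?_
  have hy : Measurable (fun q : G × G × G => f (y, q)) := hf.comp measurable_prodMk_left
  rw [lintegral_prod _ hy.aemeasurable]
  have h2 : ∀ u2 : G, ∫⁻ r : G × G, f (y, u2, r) ∂((bm X).prod nu) =
      ∫⁻ g, ∫⁻ u1, f (y, u2, g, u1) ∂nu ∂(bm X) := by
    intro u2
    have hu : Measurable (fun r : G × G => f (y, u2, r)) := hy.comp measurable_prodMk_left
    rw [lintegral_prod _ hu.aemeasurable]
  rw [lintegral_congr h2]
  have h3 : Measurable (fun q : G × G => ∫⁻ u1, f (y, q.1, q.2, u1) ∂nu) := by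
    have : Measurable (fun q : (G × G) × G => f (y, q.1.1, q.1.2, q.2)) :=
      hy.comp (by fun_prop : Measurable (fun q : (G × G) × G => (q.1.1, q.1.2, q.2)))
    exact this.lintegral_prod_right'
  rw [lintegral_lintegral_swap (f := fun u2 g => ∫⁻ u1, f (y, u2, g, u1) ∂nu) h3.aemeasurable]
  refine lintegral_congr fun g => ?_
  have h4 : Measurable (fun q : G × G => f (y, q.2, g, q.1)) :=
      hy.comp (by fun_prop : Measurable (fun q : G × G => (q.2, g, q.1)))
  rw [lintegral_lintegral_swap (f := fun u1 u2 : G => f (y, u2, g, u1)) h4.aemeasurable]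

lemma tonelli {μ : Measure Y} {c : G → Y → ℤ} (h : Sys μ c)
    (X : ℝ) (n : ℤ) :
    ∫⁻ y, ∫⁻ g, ∫⁻ u1, ∫⁻ u2, {g | c g y = n}.indicator (fun _ => (1 : ℝ≥0∞)) (u1 * g * u2)
      ∂nu ∂nu ∂(bm X) ∂μ = MM μ X {p | Cf c p = n} := by
  have := h.prob
  have hE : MeasurableSet {p : Y × G × G × G | Cf c p = n} :=
    (Cf_meas h) (measurableSet_singleton n)
  rw [← lintegral_indicator_one hE, ← tonelli' μ X _ (measurable_one.indicator hE)]
  refine lintegral_congr fun y => lintegral_congr fun g => lintegral_congr fun u1 =>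
    lintegral_congr fun u2 => ?_
  simp [Set.indicator_apply, Cf]

lemma fubini {μ : Measure Y} {c : G → Y → ℤ} (h : Sys μ c) (h5 : Basic1Stmt)
    {X : ℝ} (hX : 1 < X) (θ : ℝ) :
    ‖∫ p, ee (θ * Cf c p) ∂(MM μ X)‖ ≤
      nu.real univ * ∫ y, ‖tw c θ (bm X) (op c θ (Fs 2) (fun _ => 1)) y‖ ∂μ := by
  have := h.prob
  set H : Y → ℂ := tw c θ (bm X) (op c θ (Fs 2) (fun _ => 1)) with hH
  have hfm : Measurable (fun p : Y × G × G × G => ee (θ * Cf c p)) := by
    apply ee_meas.comp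
    have : Measurable (fun p : Y × G × G × G => ((Cf c p : ℤ) : ℝ)) :=
      (measurable_from_top (f := fun n : ℤ => (n : ℝ))).comp (Cf_meas h)
    fun_prop
  have hint : Integrable (fun p : Y × G × G × G => ee (θ * Cf c p)) (MM μ X) :=
    Integrable.of_bound hfm.aestronglyMeasurable 1
      (Eventually.of_forall fun p => (ee_norm _).le)
  have hBM1 : BM (fun _ : Y => (1 : ℂ)) := ⟨measurable_const, 1, fun _ => by simp⟩
  have hKF : KF (Fs 2) := by
    refine ⟨?_, 1, fun t ht => ?_⟩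
    · unfold Fs
      apply ContinuousOn.inv₀ (by fun_prop)
      intro t ht
      have : (1 : ℝ) ≤ t := ht
      positivity
    · rw [one_mul, abs_of_nonneg]
      unfold Fs
      positivity
  have hBM2 : BM (op c θ (Fs 2) (fun _ => 1)) := (h5 Y μ c h θ _ hBM1).2.1 _ hKF
  have hBMH : BM H := (h5 Y μ c h θ _ hBM2).1 X hX
  obtain ⟨hHm, CH, hCH⟩ := hBMH
  have key : ∫ p, ee (θ * Cf c p) ∂(MM μ X) =
      ∫ y, ∫ u2, ee (θ * c u2 y) * H (u2 • y) ∂nu ∂μ := by
    unfold MM at hint ⊢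
    rw [integral_prod _ hint]
    refine integral_congr_ae (Eventually.of_forall fun y => ?_)
    have i1 : Integrable (fun q : G × G × G => ee (θ * Cf c (y, q)))
        (nu.prod ((bm X).prod nu)) :=
      Integrable.of_bound (hfm.comp measurable_prodMk_left).aestronglyMeasurable 1
        (Eventually.of_forall fun p => (ee_norm _).le)
    simp only
    rw [integral_prod _ i1]
    refine integral_congr_ae (Eventually.of_forall fun u2 => ?_)
    have i2 : Integrable (fun q : G × G => ee (θ * Cf c (y, u2, q)))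
        ((bm X).prod nu) :=
      Integrable.of_bound ((hfm.comp measurable_prodMk_left).comp
        measurable_prodMk_left).aestronglyMeasurable 1
        (Eventually.of_forall fun p => (ee_norm _).le)
    simp only
    rw [integral_prod _ i2, hH]
    unfold tw
    rw [← integral_const_mul]
    refine integral_congr_ae (Eventually.of_forall fun g => ?_)
    simp only
    rw [op_eq, ← mul_assoc, ← integral_const_mul]
    refine integral_congr_ae (Eventually.of_forall fun u1 => ?_)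
    simp only [Cf]
    rw [h.coc, h.coc, mul_one, ← ee_add, ← ee_add]
    congr 1
    push_cast
    ring
  rw [key]
  have hsm := h.smul_meas
  have hHsm : Measurable (fun q : Y × G => ‖H (q.2 • q.1)‖) :=
    (hHm.comp (hsm.comp measurable_swap)).norm
  have i3 : Integrable (fun q : Y × G => ‖H (q.2 • q.1)‖) (μ.prod nu) :=
    Integrable.of_bound hHsm.aestronglyMeasurable CH
      (Eventually.of_forall fun p => by rw [norm_norm]; exact hCH _)
  calc ‖∫ y, ∫ u2, ee (θ * c u2 y) * H (u2 • y) ∂nu ∂μ‖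
      ≤ ∫ y, ∫ u2, ‖H (u2 • y)‖ ∂nu ∂μ := by
        refine norm_integral_le_of_norm_le i3.integral_prod_left
          (Eventually.of_forall fun y => ?_)
        refine (norm_integral_le_integral_norm _).trans (le_of_eq ?_)
        refine integral_congr_ae (Eventually.of_forall fun u2 => ?_)
        simp only
        rw [norm_mul, ee_norm, one_mul]
    _ = ∫ u2, ∫ y, ‖H (u2 • y)‖ ∂μ ∂nu := integral_integral_swap i3
    _ = ∫ u2, ∫ y, ‖H y‖ ∂μ ∂nu := by
        refine integral_congr_ae (Eventually.of_forall fun u2 => ?_)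
        simp only
        have := (h.mp u2).map_eq
        conv_rhs => rw [← this]
        rw [integral_map (h.mp u2).measurable.aemeasurable hHm.norm.aestronglyMeasurable]
    _ = nu.real univ * ∫ y, ‖H y‖ ∂μ := by
        rw [integral_const, smul_eq_mul]

omit [MulAction G Y] in
lemma jensen {μ : Measure Y} [IsProbabilityMeasure μ] {H : Y → ℂ} (hH : BM H) :
    ∫ y, ‖H y‖ ∂μ ≤ √(∫ y, ‖H y‖ ^ 2 ∂μ) := by
  obtain ⟨hHm, C, hC⟩ := hH
  apply Real.le_sqrt_of_sq_le
  set m := ∫ y, ‖H y‖ ∂μ with hm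
  have i1 : Integrable (fun y => ‖H y‖) μ :=
    Integrable.of_bound hHm.norm.aestronglyMeasurable C
      (Eventually.of_forall fun y => by rw [norm_norm]; exact hC y)
  have i2 : Integrable (fun y => ‖H y‖ ^ 2) μ := by
    refine Integrable.of_bound (hHm.norm.pow_const 2).aestronglyMeasurable (C ^ 2)
      (Eventually.of_forall fun y => ?_)
    rw [norm_pow, norm_norm]
    exact pow_le_pow_left₀ (norm_nonneg _) (hC y) 2
  have h0 : 0 ≤ ∫ y, (‖H y‖ - m) ^ 2 ∂μ := integral_nonneg fun y => sq_nonneg _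
  have h1 : ∫ y, (‖H y‖ - m) ^ 2 ∂μ = ∫ y, ‖H y‖ ^ 2 ∂μ - 2 * m * m + m ^ 2 := by
    have : (fun y => (‖H y‖ - m) ^ 2) = fun y => ‖H y‖ ^ 2 - 2 * m * ‖H y‖ + m ^ 2 := by
      funext y; ring
    have i3 : Integrable (fun y => 2 * m * ‖H y‖) μ := i1.const_mul _
    have i4 : Integrable (fun y => ‖H y‖ ^ 2 - 2 * m * ‖H y‖) μ := i2.sub i3
    rw [this, integral_add i4 (integrable_const _),
      integral_sub i2 i3, integral_const_mul, integral_const, ← hm]
    simp
  nlinarith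

lemma fourier_bound {μ : Measure Y} {c : G → Y → ℤ} (h : Sys μ c) (X : ℝ) (n : ℤ)
    (b : ℝ → ℝ) (hb : Continuous b)
    (hbound : ∀ θ, ‖∫ p, ee (θ * Cf c p) ∂(MM μ X)‖ ≤ b θ) :
    (MM μ X).real {p | Cf c p = n} ≤ ∫ θ in (0 : ℝ)..1, b θ := by
  have := h.prob
  have hE : MeasurableSet {p : Y × G × G × G | Cf c p = n} :=
    (Cf_meas h) (measurableSet_singleton n)
  have hCr : Measurable (fun p : Y × G × G × G => ((Cf c p : ℤ) : ℝ)) :=
      (measurable_from_top (f := fun n : ℤ => (n : ℝ))).comp (Cf_meas h)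
  have e1 : (((MM μ X).real {p | Cf c p = n} : ℝ) : ℂ) =
      ∫ p, (∫ θ in Ioc (0 : ℝ) 1, ee (θ * ((Cf c p - n : ℤ) : ℝ))) ∂(MM μ X) := by
    have : ∀ p, ∫ θ in Ioc (0 : ℝ) 1, ee (θ * ((Cf c p - n : ℤ) : ℝ)) =
        {p | Cf c p = n}.indicator (fun _ => (1 : ℂ)) p := by
      intro p
      rw [← intervalIntegral.integral_of_le zero_le_one, orth, Set.indicator_apply]
      simp [sub_eq_zero]
    simp_rw [this]
    rw [integral_indicator hE]
    simp
  have e2 : ∫ p, (∫ θ in Ioc (0 : ℝ) 1, ee (θ * ((Cf c p - n : ℤ) : ℝ))) ∂(MM μ X) =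
      ∫ θ in Ioc (0 : ℝ) 1, ∫ p, ee (θ * ((Cf c p - n : ℤ) : ℝ)) ∂(MM μ X) := by
    refine integral_integral_swap (f := fun p θ => ee (θ * ((Cf c p - n : ℤ) : ℝ))) ?_
    refine Integrable.of_bound ?_ 1 (Eventually.of_forall fun p => (ee_norm _).le)
    apply Measurable.aestronglyMeasurable
    apply ee_meas.comp
    push_cast
    have h1 : Measurable (fun q : (Y × G × G × G) × ℝ => ((Cf c q.1 : ℤ) : ℝ)) :=
      hCr.comp measurable_fst
    exact measurable_snd.mul (h1.sub measurable_const)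
  have e3 : ‖(((MM μ X).real {p | Cf c p = n} : ℝ) : ℂ)‖ ≤ ∫ θ in Ioc (0 : ℝ) 1, b θ := by
    rw [e1, e2]
    refine norm_integral_le_of_norm_le
      ((hb.intervalIntegrable 0 1).1) (Eventually.of_forall fun θ => ?_)
    have : ∫ p, ee (θ * ((Cf c p - n : ℤ) : ℝ)) ∂(MM μ X) =
        ee (-(θ * n)) * ∫ p, ee (θ * Cf c p) ∂(MM μ X) := by
      rw [← integral_const_mul]
      refine integral_congr_ae (Eventually.of_forall fun p => ?_)
      simp only
      rw [← ee_add]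
      congr 1
      push_cast
      ring
    rw [this, norm_mul, ee_norm, one_mul]
    exact hbound θ
  rw [intervalIntegral.integral_of_le zero_le_one]
  refine le_trans ?_ e3
  rw [Complex.norm_real]
  exact le_abs_self _

lemma dom {μ : Measure Y} {c : G → Y → ℤ} (h : Sys μ c) {C1 C2 : ℝ≥0∞}
    (h3 : ∀ x : ℝ, 2 ≤ x → ∀ φ : G → ℝ≥0∞, Measurable φ →
      ∫⁻ g, φ g ∂(bm x) ≤ C1 * ∫⁻ g, ∫⁻ u, φ (g * u) ∂(bm 2) ∂(bm (4 * x)))
    (h4 : ∀ x : ℝ, 2 ≤ x → ∀ φ : G → ℝ≥0∞, Measurable φ →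
      ∫⁻ g, φ g ∂(bm x) ≤ C2 * ∫⁻ g, ∫⁻ u, φ (u * g) ∂(bm 2) ∂(bm (4 * x)))
    {x : ℝ} (hx : 2 ≤ x) (n : ℤ) :
    Kn μ c x n ≤ C1 * C2 * 81 * MM μ (4 * (4 * x)) {p | Cf c p = n} := by
  have := h.prob
  rw [← tonelli h]
  unfold Kn
  have hmeas : ∀ y : Y, MeasurableSet {g : G | c g y = n} := fun y =>
    (h.c_meas.comp (measurable_prodMk_right (y := y))) (measurableSet_singleton n)
  have hφ : ∀ y : Y, Measurable ({g : G | c g y = n}.indicator (fun _ => (1 : ℝ≥0∞))) :=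
    fun y => measurable_const.indicator (hmeas y)
  have hbm : ∀ f : G → ℝ≥0∞, ∫⁻ g, f g ∂(bm 2) ≤ 9 * ∫⁻ g, f g ∂nu := by
    intro f
    refine (lintegral_mono' bm_two_le le_rfl).trans (le_of_eq ?_)
    rw [lintegral_smul_measure, smul_eq_mul]
  have hpt : ∀ y : Y, bm x {g | c g y = n} ≤ C1 * C2 * 81 *
      ∫⁻ g, ∫⁻ u1, ∫⁻ u2, {g | c g y = n}.indicator (fun _ => (1 : ℝ≥0∞)) (u1 * g * u2)
      ∂nu ∂nu ∂(bm (4 * (4 * x))) := by
    intro y
    set φ := {g : G | c g y = n}.indicator (fun _ => (1 : ℝ≥0∞)) with hφdef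
    have hφy : Measurable φ := hφ y
    have a1 : bm x {g | c g y = n} = ∫⁻ g, φ g ∂(bm x) := by
      rw [hφdef]
      exact (lintegral_indicator_one (hmeas y)).symm
    have hψ : Measurable (fun g : G => ∫⁻ u2, φ (g * u2) ∂(bm 2)) :=
      (hφy.comp (measurable_fst.mul measurable_snd :
        Measurable (fun p : G × G => p.1 * p.2))).lintegral_prod_right'
    have a2 := h3 x hx φ hφy
    have a3 := h4 (4 * x) (by linarith) _ hψ
    have a4 : ∀ g : G, ∫⁻ u1, ∫⁻ u2, φ (u1 * g * u2) ∂(bm 2) ∂(bm 2) ≤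
        81 * ∫⁻ u1, ∫⁻ u2, φ (u1 * g * u2) ∂nu ∂nu := by
      intro g
      calc ∫⁻ u1, ∫⁻ u2, φ (u1 * g * u2) ∂(bm 2) ∂(bm 2)
          ≤ ∫⁻ u1, 9 * ∫⁻ u2, φ (u1 * g * u2) ∂nu ∂(bm 2) :=
            lintegral_mono fun u1 => hbm _
        _ = 9 * ∫⁻ u1, ∫⁻ u2, φ (u1 * g * u2) ∂nu ∂(bm 2) :=
            lintegral_const_mul' _ _ (by norm_num)
        _ ≤ 9 * (9 * ∫⁻ u1, ∫⁻ u2, φ (u1 * g * u2) ∂nu ∂nu) := by
            gcongr
            exact hbm _
        _ = 81 * ∫⁻ u1, ∫⁻ u2, φ (u1 * g * u2) ∂nu ∂nu := by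
            rw [← mul_assoc]
            norm_num
    calc bm x {g | c g y = n} = ∫⁻ g, φ g ∂(bm x) := a1
      _ ≤ C1 * ∫⁻ g, ∫⁻ u, φ (g * u) ∂(bm 2) ∂(bm (4 * x)) := a2
      _ ≤ C1 * (C2 * ∫⁻ g, ∫⁻ u1, ∫⁻ u2, φ (u1 * g * u2) ∂(bm 2) ∂(bm 2)
            ∂(bm (4 * (4 * x)))) := by
          gcongr
      _ ≤ C1 * (C2 * ∫⁻ g, 81 * ∫⁻ u1, ∫⁻ u2, φ (u1 * g * u2) ∂nu ∂nu
            ∂(bm (4 * (4 * x)))) := by
          gcongr with g
          exact a4 g
      _ = C1 * C2 * 81 * ∫⁻ g, ∫⁻ u1, ∫⁻ u2, φ (u1 * g * u2) ∂nu ∂nu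
            ∂(bm (4 * (4 * x))) := by
          rw [lintegral_const_mul' _ _ (by norm_num)]
          ring
  refine (lintegral_mono hpt).trans (le_of_eq ?_)
  refine lintegral_const_mul _ ?_
  have hA : Measurable (fun q : ((Y × G) × G) × G =>
      {p : Y × G × G × G | Cf c p = n}.indicator (1 : Y × G × G × G → ℝ≥0∞)
        (q.1.1.1, q.2, q.1.1.2, q.1.2)) :=
    (measurable_one.indicator ((Cf_meas h) (measurableSet_singleton n))).comp (by fun_prop)
  have hB := hA.lintegral_prod_right' (ν := nu)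
  have hC := hB.lintegral_prod_right' (ν := nu)
  have hD := hC.lintegral_prod_right' (ν := bm (4 * (4 * x)))
  refine (congrArg Measurable (funext fun y => ?_)).mp hD
  refine lintegral_congr fun g => lintegral_congr fun u1 => lintegral_congr fun u2 => ?_
  simp [Set.indicator_apply, Cf]

end

theorem main (h1 : DecayStmt) (h2 : ThetaStmt) (h3 : DomRStmt) (h4 : DomLStmt)
    (h5 : Basic1Stmt) (_h6 : Basic2Stmt) : LLTStmt := by
  intro Y _ _ μ c h
  have := h.prob
  obtain ⟨C1, hC1, h3⟩ := h3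
  obtain ⟨C2, hC2, h4⟩ := h4
  obtain ⟨κ, hκ, d, hd, h1⟩ := h1 Y μ c h
  obtain ⟨C, h1, -⟩ := h1 2 le_rfl
  obtain ⟨C', h2⟩ := h2 (κ / 2) d (by positivity) hd
  have hC0 : ∀ θ : ℝ, ∀ x : ℝ, 2 ≤ x → 0 ≤ C * x ^ (-(κ * ‖ee (d * θ) - 1‖ ^ 2)) := by
    intro θ x hx
    exact le_trans (integral_nonneg fun y => sq_nonneg _)
      (h1 θ (fun _ => 1) measurable_const (fun _ => by simp) x hx)
  have hCn : 0 ≤ C := by
    have := hC0 0 2 le_rfl
    have h' : (0 : ℝ) < 2 ^ (-(κ * ‖ee (d * 0) - 1‖ ^ 2)) := Real.rpow_pos_of_pos (by norm_num) _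
    exact nonneg_of_mul_nonneg_left this h'
  set N : ℝ := nu.real univ with hN
  have hN0 : 0 ≤ N := measureReal_nonneg
  refine ⟨(C1 * C2 * 81).toReal * (N * √C * C'), fun x hx n => ?_⟩
  refine (dom h h3 h4 hx n).trans ?_
  have hX : 2 ≤ 4 * (4 * x) := by linarith
  have hxX : x ≤ 4 * (4 * x) := by linarith
  set b : ℝ → ℝ := fun θ => N * √C * x ^ (-((κ / 2) * ‖ee (d * θ) - 1‖ ^ 2)) with hb
  have hbc : Continuous b := by
    rw [hb]
    refine continuous_const.mul (Continuous.rpow continuous_const ?_ ?_)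
    · have := ee_cont
      fun_prop
    · intro θ
      left
      positivity
  have hbound : ∀ θ, ‖∫ p, ee (θ * Cf c p) ∂(MM μ (4 * (4 * x)))‖ ≤ b θ := by
    intro θ
    refine (fubini h h5 (by linarith) θ).trans ?_
    rw [hb]
    simp only
    rw [mul_assoc]
    apply mul_le_mul_of_nonneg_left _ hN0
    have hBM1 : BM (fun _ : Y => (1 : ℂ)) := ⟨measurable_const, 1, fun _ => by simp⟩
    have hKF : KF (Fs 2) := by
      refine ⟨?_, 1, fun t ht => ?_⟩
      · unfold Fs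
        apply ContinuousOn.inv₀ (by fun_prop)
        intro t ht
        have : (1 : ℝ) ≤ t := ht
        positivity
      · rw [one_mul, abs_of_nonneg]
        unfold Fs
        positivity
    have hBM2 : BM (op c θ (Fs 2) (fun _ => 1)) := (h5 Y μ c h θ _ hBM1).2.1 _ hKF
    have hBMH : BM (tw c θ (bm (4 * (4 * x))) (op c θ (Fs 2) (fun _ => 1))) :=
      (h5 Y μ c h θ _ hBM2).1 _ (by linarith)
    refine (jensen hBMH).trans ?_
    apply Real.sqrt_le_iff.2 ⟨by positivity, ?_⟩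
    refine (h1 θ (fun _ => 1) measurable_const (fun _ => by simp) _ hX).trans ?_
    rw [mul_pow, Real.sq_sqrt hCn]
    apply mul_le_mul_of_nonneg_left _ hCn
    have e1 : (x ^ (-((κ / 2) * ‖ee (d * θ) - 1‖ ^ 2))) ^ 2 =
        x ^ (-(κ * ‖ee (d * θ) - 1‖ ^ 2)) := by
      rw [← Real.rpow_natCast, ← Real.rpow_mul (by linarith)]
      congr 1
      push_cast
      ring
    rw [e1]
    apply Real.rpow_le_rpow_of_nonpos (by linarith) hxX
    have : 0 ≤ κ * ‖ee (d * θ) - 1‖ ^ 2 := by positivity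
    linarith
  have hfin := fourier_bound h (4 * (4 * x)) n b hbc hbound
  have hint : ∫ θ in (0 : ℝ)..1, b θ ≤ N * √C * (C' / √(Real.log x)) := by
    rw [hb, intervalIntegral.integral_const_mul]
    exact mul_le_mul_of_nonneg_left (h2 x hx) (by positivity)
  have hne : C1 * C2 * 81 ≠ ⊤ :=
    ENNReal.mul_ne_top (ENNReal.mul_ne_top hC1 hC2) (by norm_num)
  have hKK : C1 * C2 * 81 = ENNReal.ofReal (C1 * C2 * 81).toReal :=
    (ENNReal.ofReal_toReal hne).symm
  have hKm : C1 * C2 * 81 * MM μ (4 * (4 * x)) {p | Cf c p = n} =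
      ENNReal.ofReal ((C1 * C2 * 81).toReal * (MM μ (4 * (4 * x))).real {p | Cf c p = n}) := by
    rw [ENNReal.ofReal_mul ENNReal.toReal_nonneg, ← hKK,
      ofReal_measureReal (measure_ne_top _ _)]
  rw [hKm]
  apply ENNReal.ofReal_le_ofReal
  calc (C1 * C2 * 81).toReal * (MM μ (4 * (4 * x))).real {p | Cf c p = n}
      ≤ (C1 * C2 * 81).toReal * (N * √C * (C' / √(Real.log x))) :=
        mul_le_mul_of_nonneg_left (hfin.trans hint) ENNReal.toReal_nonneg
    _ = _ := by ring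

end

end Pool.Agent.W340.BA.LL
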